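import Mathlib
import Pool.Agent.helper31.GrothDefs
import Pool.Agent.helper31.GrothLimit

set_option autoImplicit false

/-!
# Grothendieck's inequality fails for arbitrary matrices against correlation matrices

For `𝕜 = ℝ` and for `𝕜 = ℂ` the inequality
`|tr (B^* Σ)| ≤ K_G max_Θ |tr (B^* Θ)|` (`Σ` a correlation matrix, `Θ` of rank one) fails for
suitable `B`. Indeed it needs a constant at least `2 k_G - 1`, where `k_G` is the little
Grothendieck constant (`π/2`, resp. `4/π`), while `K_G < 2 k_G - 1`.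
-/

open Pool.Agent.helper31.Groth MeasureTheory ProbabilityTheory

namespace Pool.Agent.Results.MP_aeebd3_an.Disproof

lemma rankOneMax_nonneg {𝕜 : Type} [RCLike 𝕜] {k : ℕ} (B : Matrix (Fin k) (Fin k) 𝕜) :
    0 ≤ rankOneMax B := by
  unfold rankOneMax
  refine Real.sSup_nonneg ?_
  rintro r ⟨x, _, rfl⟩
  exact norm_nonneg _

/-- For `𝕜 = ℝ` (first part) and `𝕜 = ℂ` (second part): the Grothendieck constant `K` over `𝕜`
(the least admissible constant) exists and is smaller than `π - 1` (resp. `8/π - 1`), whereas for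
every `L` smaller than `π - 1` (resp. `8/π - 1`), in particular for `L = K`, there are a
correlation matrix `S` and a matrix `B` with `|tr (B^* S)| > L max_Θ |tr (B^* Θ)|`. -/
theorem result :
    (∃ K : ℝ, IsLeast {K : ℝ | IsGrothendieckBound ℝ K} K ∧ K < Real.pi - 1 ∧
      ∀ L : ℝ, L < Real.pi - 1 → ∃ (k : ℕ) (S B : Matrix (Fin k) (Fin k) ℝ),
        IsCorrelation S ∧ L * rankOneMax B < ‖(B.conjTranspose * S).trace‖) ∧
    (∃ K : ℝ, IsLeast {K : ℝ | IsGrothendieckBound ℂ K} K ∧ K < 8 / Real.pi - 1 ∧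
      ∀ L : ℝ, L < 8 / Real.pi - 1 → ∃ (k : ℕ) (S B : Matrix (Fin k) (Fin k) ℂ),
        IsCorrelation S ∧ L * rankOneMax B < ‖(B.conjTranspose * S).trace‖) := by
  have hpi : (0 : ℝ) < Real.pi := Real.pi_pos
  constructor
  · obtain ⟨K₁, h1, h2⟩ := exists_bound_real
    obtain ⟨K, hK⟩ := exists_isLeast h1
    refine ⟨K, hK, lt_of_le_of_lt (hK.2 h1) h2, ?_⟩
    intro L hL
    have hM2 : ((Real.sqrt (2 * Real.pi))⁻¹ * 2) ^ 2 = 2 / Real.pi := by
      rw [mul_pow, inv_pow, Real.sq_sqrt (by positivity)]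
      field_simp
    have hpi2 := Real.pi_gt_three
    obtain ⟨k, S, B, hS, hSB⟩ := exists_violation (𝕜 := ℝ) radialFacts_real.M1
      (L := max L 0) (le_max_right _ _) (by
        rw [hM2, Module.finrank_self]
        have h3 : max L 0 < Real.pi - 1 := max_lt hL (by linarith)
        have h4 : 2 / Real.pi / 2 * (max L 0 + 1) = (max L 0 + 1) / Real.pi := by
          field_simp
        rw [h4]
        push_cast
        rw [div_lt_one hpi]
        linarith)
    exact ⟨k, S, B, hS, lt_of_le_of_lt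
      (mul_le_mul_of_nonneg_right (le_max_left _ _) (rankOneMax_nonneg B)) hSB⟩
  · obtain ⟨K₁, h1, h2⟩ := exists_bound_complex
    obtain ⟨K, hK⟩ := exists_isLeast h1
    refine ⟨K, hK, lt_of_le_of_lt (hK.2 h1) h2, ?_⟩
    intro L hL
    have hc1 : cMom 1 (1 / 2) = Real.pi * Real.sqrt Real.pi / (Real.sqrt (1 / 2)) := by
      rw [cMom_one (by norm_num)]
      congr 1
      ring
    have hM2 : ((2 * Real.pi)⁻¹ * cMom 1 (1 / 2)) ^ 2 = Real.pi / 2 := by
      have e1 : Real.sqrt Real.pi ^ 2 = Real.pi := Real.sq_sqrt hpi.le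
      have e2 : Real.sqrt (1 / 2) ^ 2 = 1 / 2 := Real.sq_sqrt (by norm_num)
      rw [hc1, mul_pow, inv_pow, div_pow, e2, mul_pow Real.pi, e1]
      field_simp
    have hpi2 := Real.pi_lt_four
    have h8 : 0 < 8 / Real.pi - 1 := by
      rw [sub_pos, lt_div_iff₀ hpi]
      linarith
    obtain ⟨k, S, B, hS, hSB⟩ := exists_violation (𝕜 := ℂ) radialFacts_complex.M1
      (L := max L 0) (le_max_right _ _) (by
        rw [hM2, Complex.finrank_real_complex]
        have h3 : max L 0 < 8 / Real.pi - 1 := max_lt hL h8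
        have h4 : max L 0 + 1 < 8 / Real.pi := by linarith
        rw [lt_div_iff₀ hpi] at h4
        have h5 : Real.pi / 2 / 2 * (max L 0 + 1) = (max L 0 + 1) * Real.pi / 4 := by ring
        rw [h5]
        push_cast
        linarith)
    exact ⟨k, S, B, hS, lt_of_le_of_lt
      (mul_le_mul_of_nonneg_right (le_max_left _ _) (rankOneMax_nonneg B)) hSB⟩

end Pool.Agent.Results.MP_aeebd3_an.Disproof
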